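import Pool.Agent.Lib.Ctm.Final

/-!
# `Σ_1`-undefinability below `ω_ω` does not give `0^♯`
-/

namespace Pool.Agent.Results.MP_a252be_lc.NoSharp

open Pool.Agent.Lib.Forcing Pool.Agent.Lib.Ctm

/-- There is a countable transitive model `M` of ZFC such that in `M`
* `ω_ω` exists and no uncountable ordinal `a < ω_ω` is the unique solution of a `Σ_1`-formula with
  parameter `ω_ω` (the hypothesis (U)), and
* no set is a model of ZFC; moreover every elementary embedding of a transitive model `W ⊆ M` of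
  ZFC (for instance `W = L^M`) into itself is the identity. -/
theorem result : ∃ M : Set ZFSet.{0}, M.Countable ∧ (∀ x ∈ M, ∀ y ∈ x, y ∈ M) ∧
    IsZFC M (fun x y => x.1 ∈ y.1) ∧
    (∃ k : M, IsAlephOmega (fun x y : M => x.1 ∈ y.1) k) ∧
    (∀ k : M, IsAlephOmega (fun x y : M => x.1 ∈ y.1) k → ∀ φ : Fml, Sigma1 φ → ∀ a : M,
      Pool.Agent.Lib.Forcing.IsOrdinal (fun x y : M => x.1 ∈ y.1) a →
      IsUncountable (fun x y : M => x.1 ∈ y.1) a → a.1 ∈ k.1 →
      ¬ ∀ y : M, Sat (fun x y : M => x.1 ∈ y.1) φ (cons y (fun _ => k)) ↔ y = a) ∧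
    (∀ a ∈ M, ¬ IsZFC {x // x ∈ a} (fun x y => x.1 ∈ y.1)) ∧
    (∀ W : Set ZFSet.{0}, W ⊆ M → (∀ x ∈ W, ∀ y ∈ x, y ∈ W) → IsZFC W (fun x y => x.1 ∈ y.1) →
      ∀ j : W → W, (∀ (φ : Fml) (v : ℕ → W), Sat (fun x y : W => x.1 ∈ y.1) φ v ↔
        Sat (fun x y : W => x.1 ∈ y.1) φ (fun i => j (v i))) → ∀ x, j x = x) := by
  obtain ⟨M, hc, hM, ⟨k, hk, hU⟩, hno⟩ := main
  refine ⟨M, hc, hM.trans, hM.zfc, ⟨k, hk⟩, ?_, hno, ?_⟩
  · intro k' hk' φ hφ a ha hunc hak hdef
    obtain rfl := isAlephOmega_unique hM.toTM hk hk'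
    refine hU φ hφ a.1 hak ((isOrdinal_iff hM.toTM a).1 ha)
      ((isUncountable_iff hM.toTM a).1 hunc) fun y hy => ?_
    have h := hdef ⟨y, hy⟩
    rw [satC_iff] at h
    have e : (fun i => (cons (⟨y, hy⟩ : M) (fun _ => k) i).1) = cons y (fun _ => k.1) := by
      funext i; cases i <;> rfl
    rw [e] at h
    rw [h]
    exact ⟨fun h => congrArg Subtype.val h, fun h => Subtype.ext h⟩
  · intro W hWM hWt hWz j hj x
    classical
    have hW := TC.of hWt hWz
    have h := no_embedding hW (fun a ha => hno a (hWM ha))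
      (fun y => if h : y ∈ W then (j ⟨y, h⟩).1 else ∅)
      (fun y hy => by rw [dif_pos hy]; exact (j ⟨y, hy⟩).2)
      (fun φ v hv => by
        have h1 := hj φ (fun i => ⟨v i, hv i⟩)
        rw [satC_iff, satC_iff] at h1
        have e : (fun i => if h : v i ∈ W then (j ⟨v i, h⟩).1 else ∅) =
            fun i => (j ⟨v i, hv i⟩).1 := by
          funext i; rw [dif_pos (hv i)]
        rw [e]; exact h1) x.1 x.2
    rw [dif_pos x.2] at h
    exact Subtype.ext h

end Pool.Agent.Results.MP_a252be_lc.NoSharp
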